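import Mathlib

/-!
# The peeling lemma for Schur triples

`FF B = 4 * #{(x,y) ∈ B × B : x + y ∈ B} - 3 |B|^2`.
-/

set_option autoImplicit false
set_option linter.unusedSectionVars false

namespace Pool.Agent.Lib_helper13.PL

open Finset

section defs
variable {G : Type*} [AddCommGroup G] [DecidableEq G]

/-- number of pairs `(x,y) ∈ X × Y` with `x + y ∈ Z` -/
def TT (X Y Z : Finset G) : ℤ := ∑ x ∈ X, ∑ y ∈ Y, if x + y ∈ Z then 1 else 0

/-- `4 schur(B) - 3 |B|^2` -/
def FF (B : Finset G) : ℤ := 4 * TT B B B - 3 * (B.card : ℤ) ^ 2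

/-- `δ_X(y) = |X \ (X - y)|` -/
def dlt (X : Finset G) (y : G) : ℤ := ((X.filter (fun x => x + y ∉ X)).card : ℤ)

/-- fibre -/
def fib {Q : Type*} [DecidableEq Q] (φ : G → Q) (B : Finset G) (u : Q) : Finset G :=
  B.filter (fun x => φ x = u)

lemma TT_comm (X Y Z : Finset G) : TT X Y Z = TT Y X Z := by
  unfold TT
  rw [Finset.sum_comm]
  refine Finset.sum_congr rfl fun x _ => Finset.sum_congr rfl fun y _ => ?_
  rw [add_comm]

lemma TT_union1 {X X' : Finset G} (Y Z : Finset G) (h : Disjoint X X') :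
    TT (X ∪ X') Y Z = TT X Y Z + TT X' Y Z := by
  unfold TT
  rw [Finset.sum_union h]

lemma TT_union2 (X : Finset G) {Y Y' : Finset G} (Z : Finset G) (h : Disjoint Y Y') :
    TT X (Y ∪ Y') Z = TT X Y Z + TT X Y' Z := by
  rw [TT_comm, TT_union1 _ _ h, TT_comm, TT_comm Y']

lemma TT_union3 (X Y : Finset G) {Z Z' : Finset G} (h : Disjoint Z Z') :
    TT X Y (Z ∪ Z') = TT X Y Z + TT X Y Z' := by
  unfold TT
  rw [← Finset.sum_add_distrib]
  refine Finset.sum_congr rfl fun x _ => ?_
  rw [← Finset.sum_add_distrib]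
  refine Finset.sum_congr rfl fun y _ => ?_
  by_cases h1 : x + y ∈ Z
  · have h2 : x + y ∉ Z' := fun h2 => (Finset.disjoint_left.mp h) h1 h2
    simp [h1, h2]
  · by_cases h2 : x + y ∈ Z' <;> simp [h1, h2]

lemma TT_nonneg (X Y Z : Finset G) : 0 ≤ TT X Y Z := by
  unfold TT
  refine Finset.sum_nonneg fun x _ => Finset.sum_nonneg fun y _ => ?_
  split_ifs <;> norm_num

lemma TT_le12 (X Y Z : Finset G) : TT X Y Z ≤ (X.card : ℤ) * Y.card := by
  unfold TT
  calc ∑ x ∈ X, ∑ y ∈ Y, (if x + y ∈ Z then (1:ℤ) else 0) ≤ ∑ x ∈ X, ∑ y ∈ Y, (1:ℤ) := by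
        refine Finset.sum_le_sum fun x _ => Finset.sum_le_sum fun y _ => ?_
        split_ifs <;> norm_num
    _ = (X.card : ℤ) * Y.card := by simp

lemma TT_le13 (X Y Z : Finset G) : TT X Y Z ≤ (X.card : ℤ) * Z.card := by
  unfold TT
  calc ∑ x ∈ X, ∑ y ∈ Y, (if x + y ∈ Z then (1:ℤ) else 0) ≤ ∑ x ∈ X, (Z.card : ℤ) := by
        refine Finset.sum_le_sum fun x _ => ?_
        rw [Finset.sum_boole]
        have : (Y.filter (fun y => x + y ∈ Z)).card ≤ Z.card := by
          refine Finset.card_le_card_of_injOn (fun y => x + y) ?_ ?_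
          · intro y hy
            simpa using (Finset.mem_filter.mp hy).2
          · intro a _ b _ hab
            simpa using hab
        exact_mod_cast this
    _ = (X.card : ℤ) * Z.card := by simp

lemma TT_le23 (X Y Z : Finset G) : TT X Y Z ≤ (Y.card : ℤ) * Z.card := by
  rw [TT_comm]; exact TT_le13 _ _ _

lemma TT_eq_zero {X Y Z : Finset G} (h : ∀ x ∈ X, ∀ y ∈ Y, x + y ∉ Z) : TT X Y Z = 0 := by
  unfold TT
  refine Finset.sum_eq_zero fun x hx => Finset.sum_eq_zero fun y hy => ?_
  rw [if_neg (h x hx y hy)]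

lemma TT_congr {X Y Z Z' : Finset G} (h : ∀ x ∈ X, ∀ y ∈ Y, (x + y ∈ Z ↔ x + y ∈ Z')) :
    TT X Y Z = TT X Y Z' := by
  unfold TT
  refine Finset.sum_congr rfl fun x hx => Finset.sum_congr rfl fun y hy => ?_
  simp only [h x hx y hy]

lemma dlt_nonneg (X : Finset G) (y : G) : 0 ≤ dlt X y := by unfold dlt; positivity

lemma TT_self (P Y : Finset G) : TT P Y P = (P.card : ℤ) * Y.card - ∑ y ∈ Y, dlt P y := by
  rw [TT_comm]
  unfold TT
  have : ∀ y ∈ Y, (∑ x ∈ P, if y + x ∈ P then (1:ℤ) else 0) = (P.card : ℤ) - dlt P y := by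
    intro y _
    rw [Finset.sum_boole]
    unfold dlt
    have h := Finset.card_filter_add_card_filter_not (s := P) (fun x => x + y ∈ P)
    have h2 : (P.filter (fun x => y + x ∈ P)) = P.filter (fun x => x + y ∈ P) := by
      refine Finset.filter_congr fun x _ => ?_
      rw [add_comm]
    rw [h2]
    have h3 : ((P.filter (fun x => x + y ∈ P)).card : ℤ)
        + ((P.filter (fun x => ¬ (x + y ∈ P))).card : ℤ) = P.card := by exact_mod_cast h
    linarith
  rw [Finset.sum_congr rfl this, Finset.sum_sub_distrib]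
  simp [mul_comm]

/-- adding one piece -/
lemma TT_add_piece {B' P : Finset G} (h : Disjoint B' P) :
    TT (B' ∪ P) (B' ∪ P) (B' ∪ P) = TT B' B' B' + TT B' B' P + 2 * TT P B' (B' ∪ P)
      + TT P P (B' ∪ P) := by
  rw [TT_union1 _ _ h, TT_union2 _ _ h, TT_union2 _ _ h, TT_union3 _ _ h,
    TT_comm B' P]
  ring

end defs

section peel
variable {G Q : Type*} [AddCommGroup G] [DecidableEq G] [AddCommGroup Q] [DecidableEq Q]

/-- positive part, negative part of the mass -/
def bpos (φ : G → Q) (ν : Q → ℤ) (B : Finset G) : ℤ :=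
  ((B.filter (fun x => 0 < ν (φ x))).card : ℤ)
def bneg (φ : G → Q) (ν : Q → ℤ) (B : Finset G) : ℤ :=
  ((B.filter (fun x => ν (φ x) < 0)).card : ℤ)

/-- one step of the peeling, top piece of positive height -/
lemma peel_step (φ : G →+ Q) (ν : Q → ℤ) (B' P : Finset G) (u : Q) (hdis : Disjoint B' P)
    (hP : ∀ x ∈ P, φ x = u) (hB' : ∀ x ∈ B', φ x ≠ u) (hu : 0 < ν u)
    (h0 : ν 0 = 0)
    (htop : ∀ x ∈ B', |ν (φ x)| ≤ ν u)
    (hadd : ∀ x ∈ B' ∪ P, ∀ y ∈ B' ∪ P, x + y ∈ B' ∪ P → ν (φ (x + y)) = ν (φ x) + ν (φ y))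
    (hz : ∀ x ∈ B' ∪ P, ν (φ x) = 0 → φ x = 0) :
    FF (B' ∪ P) + (bpos φ ν (B' ∪ P) - bneg φ ν (B' ∪ P)) ^ 2 ≤
      FF B' + (bpos φ ν B' - bneg φ ν B') ^ 2 +
      (2 * (P.card : ℤ) * ((fib φ B' 0).card - P.card) - 8 * ∑ y ∈ fib φ B' 0, dlt P y) := by
  classical
  set w : ℤ := (P.card : ℤ) with hw
  -- decomposition of B'
  set B0 := fib φ B' 0 with hB0
  set Bp := B'.filter (fun x => 0 < ν (φ x)) with hBp
  set Bm := B'.filter (fun x => ν (φ x) < 0) with hBm
  have hd1 : Disjoint B0 Bp := by
    rw [Finset.disjoint_left]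
    intro x h1 h2
    simp only [hB0, fib, hBp, Finset.mem_filter] at h1 h2
    rw [h1.2, h0] at h2
    exact absurd h2.2 (lt_irrefl _)
  have hd2 : Disjoint (B0 ∪ Bp) Bm := by
    rw [Finset.disjoint_left]
    intro x h1 h2
    simp only [hB0, fib, hBp, hBm, Finset.mem_filter, Finset.mem_union] at h1 h2
    rcases h1 with h1 | h1
    · rw [h1.2, h0] at h2
      exact absurd h2.2 (lt_irrefl _)
    · linarith [h1.2, h2.2]
  have hunion : B' = (B0 ∪ Bp) ∪ Bm := by
    ext x
    simp only [hB0, fib, hBp, hBm, Finset.mem_filter, Finset.mem_union]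
    constructor
    · intro hx
      rcases lt_trichotomy (ν (φ x)) 0 with h | h | h
      · right; exact ⟨hx, h⟩
      · left; left; exact ⟨hx, hz x (Finset.mem_union_left _ hx) h⟩
      · left; right; exact ⟨hx, h⟩
    · rintro ((h | h) | h) <;> exact h.1
  have hcard : (B'.card : ℤ) = B0.card + Bp.card + Bm.card := by
    conv_lhs => rw [hunion]
    rw [Finset.card_union_of_disjoint hd2, Finset.card_union_of_disjoint hd1]
    push_cast; ring
  -- the three estimates
  have e1 : TT P P (B' ∪ P) = 0 := by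
    refine TT_eq_zero fun x hx y hy hxy => ?_
    have h1 := hadd x (Finset.mem_union_right _ hx) y (Finset.mem_union_right _ hy) hxy
    rw [hP x hx, hP y hy] at h1
    rcases Finset.mem_union.mp hxy with h2 | h2
    · have h3 := htop _ h2
      rw [h1] at h3
      have := le_abs_self (ν u + ν u)
      linarith
    · rw [hP _ h2] at h1
      linarith
  have e2 : TT P B' (B' ∪ P) ≤ w * B0.card - ∑ y ∈ B0, dlt P y + w * Bm.card := by
    have h1 : TT P B' (B' ∪ P) = TT P B0 (B' ∪ P) + TT P Bp (B' ∪ P) + TT P Bm (B' ∪ P) := by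
      conv_lhs => rw [show TT P B' (B' ∪ P) = TT P ((B0 ∪ Bp) ∪ Bm) (B' ∪ P) by rw [← hunion]]
      rw [TT_union2 _ _ hd2, TT_union2 _ _ hd1]
    have h2 : TT P Bp (B' ∪ P) = 0 := by
      refine TT_eq_zero fun x hx y hy hxy => ?_
      have hy' := Finset.mem_filter.mp hy
      have h3 := hadd x (Finset.mem_union_right _ hx) y (Finset.mem_union_left _ hy'.1) hxy
      rw [hP x hx] at h3
      rcases Finset.mem_union.mp hxy with h2 | h2
      · have h4 := htop _ h2
        rw [h3] at h4
        have := le_abs_self (ν u + ν (φ y))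
        linarith [hy'.2]
      · rw [hP _ h2] at h3
        linarith [hy'.2]
    have h3 : TT P Bm (B' ∪ P) ≤ w * Bm.card := TT_le12 _ _ _
    have h4 : TT P B0 (B' ∪ P) = w * B0.card - ∑ y ∈ B0, dlt P y := by
      rw [← TT_self]
      refine TT_congr fun x hx y hy => ?_
      have hy' := Finset.mem_filter.mp hy
      have h5 : φ (x + y) = u := by rw [map_add, hP x hx, hy'.2, add_zero]
      constructor
      · intro h6
        rcases Finset.mem_union.mp h6 with h7 | h7
        · exact absurd h5 (hB' _ h7)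
        · exact h7
      · intro h6
        exact Finset.mem_union_right _ h6
    linarith
  have e3 : TT B' B' P ≤ w * Bp.card := by
    have hle : TT B' B' P = TT Bp B' P := by
      conv_lhs => rw [show TT B' B' P = TT ((B0 ∪ Bp) ∪ Bm) B' P by rw [← hunion]]
      rw [TT_union1 _ _ hd2, TT_union1 _ _ hd1]
      have z1 : TT B0 B' P = 0 := by
        refine TT_eq_zero fun x hx y hy hxy => ?_
        have hx' := Finset.mem_filter.mp hx
        have h1 : φ (x + y) = u := hP _ hxy
        rw [map_add, hx'.2, zero_add] at h1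
        exact hB' y hy h1
      have z2 : TT Bm B' P = 0 := by
        refine TT_eq_zero fun x hx y hy hxy => ?_
        have hx' := Finset.mem_filter.mp hx
        have h1 := hadd x (Finset.mem_union_left _ hx'.1) y (Finset.mem_union_left _ hy)
          (Finset.mem_union_right _ hxy)
        rw [hP _ hxy] at h1
        have h2 := htop y hy
        have := le_abs_self (ν (φ y))
        linarith [hx'.2]
      rw [z1, z2]; ring
    rw [hle]
    have := TT_le13 Bp B' P
    linarith [mul_comm (Bp.card : ℤ) P.card]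
  -- masses
  have m1 : bpos φ ν (B' ∪ P) = Bp.card + w := by
    unfold bpos
    rw [Finset.filter_union, Finset.card_union_of_disjoint]
    · have : P.filter (fun x => 0 < ν (φ x)) = P := by
        refine Finset.filter_true_of_mem fun x hx => ?_
        rw [hP x hx]; exact hu
      rw [this]; push_cast; rfl
    · exact Finset.disjoint_filter_filter hdis
  have m2 : bneg φ ν (B' ∪ P) = Bm.card := by
    unfold bneg
    rw [Finset.filter_union]
    have : P.filter (fun x => ν (φ x) < 0) = ∅ := by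
      refine Finset.filter_false_of_mem fun x hx => ?_
      rw [hP x hx]; linarith
    rw [this, Finset.union_empty]
  have m3 : bpos φ ν B' = Bp.card := rfl
  have m4 : bneg φ ν B' = Bm.card := rfl
  have hT := TT_add_piece hdis
  have hc : (((B' ∪ P).card : ℕ) : ℤ) = B'.card + w := by
    rw [Finset.card_union_of_disjoint hdis]; push_cast; rfl
  unfold FF
  rw [hT, hc, m1, m2, m3, m4, hcard, e1]
  nlinarith [e2, e3]

/-- the sum over the nonzero fibres -/
def peelSum (φ : G → Q) (B : Finset G) (z : Q) : ℤ :=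
  ∑ u ∈ (B.image φ).erase z,
    (2 * ((fib φ B u).card : ℤ) * ((fib φ B z).card - (fib φ B u).card)
      - 8 * ∑ y ∈ fib φ B z, dlt (fib φ B u) y)

lemma bpos_neg (φ : G → Q) (ν : Q → ℤ) (B : Finset G) :
    bpos φ (fun q => - ν q) B = bneg φ ν B := by
  unfold bpos bneg
  congr 2
  ext x
  simp

lemma bneg_neg (φ : G → Q) (ν : Q → ℤ) (B : Finset G) :
    bneg φ (fun q => - ν q) B = bpos φ ν B := by
  unfold bpos bneg
  congr 2
  ext x
  simp

/-- **The peeling lemma.** -/
theorem peel (φ : G →+ Q) (ν : Q → ℤ) (h0 : ν 0 = 0) : ∀ (n : ℕ) (B : Finset G),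
    ((B.image φ).erase 0).card = n →
    (∀ x ∈ B, ∀ y ∈ B, x + y ∈ B → ν (φ (x + y)) = ν (φ x) + ν (φ y)) →
    (∀ x ∈ B, ν (φ x) = 0 → φ x = 0) →
    FF B + (bpos φ ν B - bneg φ ν B) ^ 2 ≤ FF (fib φ B 0) + peelSum φ B 0 := by
  classical
  intro n
  induction n with
  | zero =>
    intro B hn hadd hz
    have he : (B.image φ).erase 0 = ∅ := Finset.card_eq_zero.mp hn
    have hB : ∀ x ∈ B, φ x = 0 := by
      intro x hx
      by_contra h
      have : φ x ∈ (B.image φ).erase 0 :=
        Finset.mem_erase.mpr ⟨h, Finset.mem_image_of_mem _ hx⟩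
      rw [he] at this
      exact absurd this (Finset.notMem_empty _)
    have h1 : fib φ B 0 = B := by
      unfold fib
      exact Finset.filter_true_of_mem hB
    have h2 : bpos φ ν B = 0 := by
      unfold bpos
      rw [Finset.filter_false_of_mem]
      · simp
      · intro x hx; rw [hB x hx, h0]; exact lt_irrefl _
    have h3 : bneg φ ν B = 0 := by
      unfold bneg
      rw [Finset.filter_false_of_mem]
      · simp
      · intro x hx; rw [hB x hx, h0]; exact lt_irrefl _
    unfold peelSum
    rw [h1, h2, h3, he]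
    simp
  | succ n ih =>
    intro B hn hadd hz
    have hne : ((B.image φ).erase 0).Nonempty := by
      rw [← Finset.card_pos, hn]; omega
    obtain ⟨u, hu, hmax⟩ := Finset.exists_max_image _ (fun q => |ν q|) hne
    have hu0 : u ≠ 0 := (Finset.mem_erase.mp hu).1
    obtain ⟨x0, hx0, hx0u⟩ := Finset.mem_image.mp (Finset.mem_erase.mp hu).2
    have hνu : ν u ≠ 0 := by
      intro h
      rw [← hx0u] at h hu0
      exact hu0 (hz x0 hx0 h)
    set P := fib φ B u with hP
    set B' := B.filter (fun x => φ x ≠ u) with hB'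
    have hdis : Disjoint B' P := by
      rw [Finset.disjoint_left]
      intro x h1 h2
      exact (Finset.mem_filter.mp h1).2 (Finset.mem_filter.mp h2).2
    have hBu : B' ∪ P = B := by
      ext x
      simp only [hB', hP, fib, Finset.mem_union, Finset.mem_filter]
      tauto
    have htop : ∀ x ∈ B', |ν (φ x)| ≤ |ν u| := by
      intro x hx
      have hx' := Finset.mem_filter.mp hx
      by_cases h : φ x = 0
      · rw [h, h0, abs_zero]; exact abs_nonneg _
      · exact hmax _ (Finset.mem_erase.mpr ⟨h, Finset.mem_image_of_mem _ hx'.1⟩)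
    -- image of B'
    have himg : (B'.image φ).erase 0 = ((B.image φ).erase 0).erase u := by
      ext v
      simp only [hB', Finset.mem_erase, Finset.mem_image, Finset.mem_filter]
      constructor
      · rintro ⟨h1, x, ⟨h2, h3⟩, h4⟩
        exact ⟨by rw [← h4]; exact h3, h1, x, h2, h4⟩
      · rintro ⟨h1, h2, x, h3, h4⟩
        exact ⟨h2, x, ⟨h3, by rw [h4]; exact h1⟩, h4⟩
    have hcard : ((B'.image φ).erase 0).card = n := by
      rw [himg, Finset.card_erase_of_mem hu, hn]; rfl
    have hsub : ∀ x ∈ B', x ∈ B := fun x hx => (Finset.mem_filter.mp hx).1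
    have hfib : ∀ v, v ≠ u → fib φ B' v = fib φ B v := by
      intro v hv
      unfold fib
      ext x
      simp only [hB', Finset.mem_filter]
      constructor
      · rintro ⟨⟨h1, _⟩, h2⟩; exact ⟨h1, h2⟩
      · rintro ⟨h1, h2⟩; exact ⟨⟨h1, by rw [h2]; exact hv⟩, h2⟩
    have hIH := ih B' hcard
      (fun x hx y hy hxy => hadd x (hsub x hx) y (hsub y hy) (hsub _ hxy))
      (fun x hx => hz x (hsub x hx))
    have h00 : fib φ B' 0 = fib φ B 0 := hfib 0 (Ne.symm hu0)
    have hsum : peelSum φ B 0 = peelSum φ B' 0 +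
        (2 * (P.card : ℤ) * ((fib φ B 0).card - P.card) - 8 * ∑ y ∈ fib φ B 0, dlt P y) := by
      unfold peelSum
      rw [← Finset.sum_erase_add _ _ hu, himg, h00]
      congr 1
      refine Finset.sum_congr rfl fun v hv => ?_
      rw [hfib v (Finset.mem_erase.mp hv).1]
    have hstep : FF B + (bpos φ ν B - bneg φ ν B) ^ 2 ≤
        FF B' + (bpos φ ν B' - bneg φ ν B') ^ 2 +
        (2 * (P.card : ℤ) * ((fib φ B 0).card - P.card) - 8 * ∑ y ∈ fib φ B 0, dlt P y) := by
      rcases lt_or_gt_of_ne hνu with hneg | hpos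
      · have h := peel_step φ (fun q => - ν q) B' P u hdis
          (fun x hx => (Finset.mem_filter.mp hx).2) (fun x hx => (Finset.mem_filter.mp hx).2)
          (by simpa using hneg) (by simp [h0])
          (by
            intro x hx
            have := htop x hx
            rw [abs_of_neg hneg] at this
            simpa using this)
          (by
            rw [hBu]
            intro x hx y hy hxy
            have := hadd x hx y hy hxy
            rw [this]; ring)
          (by
            rw [hBu]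
            intro x hx hx2
            exact hz x hx (by simpa using hx2))
        rw [hBu, h00] at h
        simp only [bpos_neg, bneg_neg] at h
        nlinarith [h]
      · have h := peel_step φ ν B' P u hdis
          (fun x hx => (Finset.mem_filter.mp hx).2) (fun x hx => (Finset.mem_filter.mp hx).2)
          hpos h0
          (by
            intro x hx
            have := htop x hx
            rwa [abs_of_pos hpos] at this)
          (by rw [hBu]; exact hadd)
          (by rw [hBu]; exact hz)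
        rw [hBu, h00] at h
        exact h
    rw [h00] at hIH
    linarith

/-- simple form of the peeling lemma -/
theorem peel_simple (φ : G →+ Q) (ν : Q → ℤ) (h0 : ν 0 = 0) (B : Finset G)
    (hadd : ∀ x ∈ B, ∀ y ∈ B, x + y ∈ B → ν (φ (x + y)) = ν (φ x) + ν (φ y))
    (hz : ∀ x ∈ B, ν (φ x) = 0 → φ x = 0) :
    FF B + (bpos φ ν B - bneg φ ν B) ^ 2 ≤ FF (fib φ B 0) +
      ∑ u ∈ (B.image φ).erase 0, (8 * min (((fib φ B u).card : ℤ) ^ 2)
        (((fib φ B u).card : ℤ) * (fib φ B 0).card)
        - 6 * ((fib φ B u).card : ℤ) * (fib φ B 0).card - 2 * ((fib φ B u).card : ℤ) ^ 2) := by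
  have h := peel φ ν h0 _ B rfl hadd hz
  refine h.trans ?_
  unfold peelSum
  refine add_le_add le_rfl (Finset.sum_le_sum fun u hu => ?_)
  have h1 := TT_self (fib φ B u) (fib φ B 0)
  have h2 := TT_le12 (fib φ B u) (fib φ B 0) (fib φ B u)
  have h3 := TT_le13 (fib φ B u) (fib φ B 0) (fib φ B u)
  have h4 : TT (fib φ B u) (fib φ B 0) (fib φ B u) ≤ min (((fib φ B u).card : ℤ) ^ 2)
        (((fib φ B u).card : ℤ) * (fib φ B 0).card) := by
    refine le_min ?_ h2
    rw [sq]; exact h3
  rw [h1] at h4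
  linarith

end peel

end Pool.Agent.Lib_helper13.PL
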