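import Mathlib
import Pool.Agent.Lib_helper13.PL.Peel
import Pool.Agent.Lib_helper28.GL.Defs

/-!
# Consequences of the peeling lemma: `B` contains the kernel of the height function
-/

set_option autoImplicit false
set_option linter.unusedSectionVars false

namespace Pool.Agent.Lib_helper13.PL

open Finset

section num

/-- `γ_h(x) = (x mod h) (h - (x mod h))` -/
def gam (h x : ℤ) : ℤ := (x % h) * (h - x % h)

lemma gam_nonneg {h : ℤ} (hh : 0 < h) (x : ℤ) : 0 ≤ gam h x := by
  unfold gam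
  have h1 := Int.emod_nonneg x hh.ne'
  have h2 := Int.emod_lt_of_pos x hh
  exact mul_nonneg h1 (by linarith)

lemma gam_add_mul (h x k : ℤ) : gam h (x + h * k) = gam h x := by
  unfold gam
  rw [Int.add_mul_emod_self_left]

lemma gam_of_lt {h x : ℤ} (h0 : 0 ≤ x) (h1 : x ≤ h) (hh : 0 < h) : gam h x = x * (h - x) := by
  rcases h1.lt_or_eq with h2 | h2
  · unfold gam
    rw [Int.emod_eq_of_lt h0 h2]
  · subst h2
    unfold gam
    simp

lemma gam_val {h x : ℤ} (k : ℤ) (h0 : 0 ≤ x) (h1 : x ≤ h) (hh : 0 < h) :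
    gam h (h * k + x) = x * (h - x) := by
  rw [add_comm, gam_add_mul, gam_of_lt h0 h1 hh]

lemma gam_val' {h x : ℤ} (k : ℤ) (h0 : 0 ≤ x) (h1 : x ≤ h) (hh : 0 < h) :
    gam h (h * k - x) = x * (h - x) := by
  have h2 : h * k - x = h * (k - 1) + (h - x) := by ring
  rw [h2, gam_val (k - 1) (by linarith) (by linarith) hh]
  ring

lemma gam_add {h : ℤ} (hh : 0 < h) (x y : ℤ) : gam h (x + y) ≤ gam h x + gam h y := by
  obtain ⟨a, k, hx, ha0, ha1⟩ : ∃ a k : ℤ, x = a + h * k ∧ 0 ≤ a ∧ a < h :=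
    ⟨x % h, x / h, (Int.emod_add_mul_ediv x h).symm, Int.emod_nonneg x hh.ne', Int.emod_lt_of_pos x hh⟩
  obtain ⟨b, l, hy, hb0, hb1⟩ : ∃ b l : ℤ, y = b + h * l ∧ 0 ≤ b ∧ b < h :=
    ⟨y % h, y / h, (Int.emod_add_mul_ediv y h).symm, Int.emod_nonneg y hh.ne', Int.emod_lt_of_pos y hh⟩
  have e1 : gam h x = a * (h - a) := by rw [hx, gam_add_mul, gam_of_lt ha0 ha1.le hh]
  have e2 : gam h y = b * (h - b) := by rw [hy, gam_add_mul, gam_of_lt hb0 hb1.le hh]
  rcases le_or_gt (a + b) h with h1 | h1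
  · have e3 : gam h (x + y) = (a + b) * (h - (a + b)) := by
      rw [hx, hy, show a + h * k + (b + h * l) = (a + b) + h * (k + l) by ring, gam_add_mul,
        gam_of_lt (by linarith) h1 hh]
    rw [e1, e2, e3]
    nlinarith [mul_nonneg ha0 hb0]
  · have e3 : gam h (x + y) = (a + b - h) * (h - (a + b - h)) := by
      rw [hx, hy, show a + h * k + (b + h * l) = (a + b - h) + h * (k + l + 1) by ring,
        gam_add_mul, gam_of_lt (by linarith) (by linarith) hh]
    rw [e1, e2, e3]
    nlinarith [mul_nonneg (sub_nonneg.mpr ha1.le) (sub_nonneg.mpr hb1.le)]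

lemma gam_sum {ι : Type*} {h : ℤ} (hh : 0 < h) (I : Finset ι) (g : ι → ℤ)
    (h0 : ∀ i ∈ I, 0 ≤ g i) (h1 : ∀ i ∈ I, g i ≤ h) :
    gam h (∑ i ∈ I, g i) ≤ ∑ i ∈ I, g i * (h - g i) := by
  classical
  induction I using Finset.induction_on with
  | empty => simp [gam]
  | insert a s ha ih =>
    rw [Finset.sum_insert ha, Finset.sum_insert ha]
    have e1 := gam_add hh (g a) (∑ i ∈ s, g i)
    have e2 := ih (fun i hi => h0 i (Finset.mem_insert_of_mem hi))
      (fun i hi => h1 i (Finset.mem_insert_of_mem hi))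
    have e3 : gam h (g a) = g a * (h - g a) :=
      gam_of_lt (h0 a (Finset.mem_insert_self _ _)) (h1 a (Finset.mem_insert_self _ _)) hh
    linarith

/-- the numerical inequality -/
lemma num_main {h p n s k : ℤ} (hh : 0 < h) (hs0 : 0 ≤ s) (hs1 : s ≤ h)
    (hT : p + n = 2 * h * k + s ∨ p + n = 2 * h * k - s) :
    s ^ 2 + 6 * s * (h - s) ≤ (p - n) ^ 2 + 6 * (gam h p + gam h n) := by
  by_cases hD : s ≤ |p - n|
  · have h1 : s ^ 2 ≤ (p - n) ^ 2 := by
      rw [← sq_abs (p - n)]
      exact pow_le_pow_left₀ hs0 hD 2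
    have h2 : gam h (p + n) = s * (h - s) := by
      rcases hT with hT | hT
      · rw [hT, show 2 * h * k + s = h * (2 * k) + s by ring]
        exact gam_val _ hs0 hs1 hh
      · rw [hT, show 2 * h * k - s = h * (2 * k) - s by ring]
        exact gam_val' _ hs0 hs1 hh
    have h3 := gam_add hh p n
    rw [h2] at h3
    nlinarith
  · push Not at hD
    have hD' := abs_lt.mp hD
    rcases hT with hT | hT
    · -- p = h k + (s + D)/2, n = h k + (s - D)/2
      obtain ⟨x, hx⟩ : ∃ x, x = p - h * k := ⟨_, rfl⟩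
      obtain ⟨y, hy⟩ : ∃ y, y = n - h * k := ⟨_, rfl⟩
      have hxy : x + y = s := by rw [hx, hy]; linarith
      have hxy2 : x - y = p - n := by rw [hx, hy]; ring
      have e1 : gam h p = x * (h - x) := by
        rw [show p = h * k + x by rw [hx]; ring]
        exact gam_val _ (by linarith) (by linarith) hh
      have e2 : gam h n = y * (h - y) := by
        rw [show n = h * k + y by rw [hy]; ring]
        exact gam_val _ (by linarith) (by linarith) hh
      rw [e1, e2, ← hxy2]
      have hs : s = x + y := hxy.symm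
      subst hs
      have hx0 : 0 ≤ x := by linarith
      have hy0 : 0 ≤ y := by linarith
      nlinarith [mul_nonneg hx0 hy0]
    · obtain ⟨x, hx⟩ : ∃ x, x = h * k - p := ⟨_, rfl⟩
      obtain ⟨y, hy⟩ : ∃ y, y = h * k - n := ⟨_, rfl⟩
      have hxy : x + y = s := by rw [hx, hy]; linarith
      have hxy2 : y - x = p - n := by rw [hx, hy]; ring
      have e1 : gam h p = x * (h - x) := by
        rw [show p = h * k - x by rw [hx]; ring]
        exact gam_val' _ (by linarith) (by linarith) hh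
      have e2 : gam h n = y * (h - y) := by
        rw [show n = h * k - y by rw [hy]; ring]
        exact gam_val' _ (by linarith) (by linarith) hh
      rw [e1, e2, ← hxy2]
      have hs : s = x + y := hxy.symm
      subst hs
      have hx0 : 0 ≤ x := by linarith
      have hy0 : 0 ≤ y := by linarith
      nlinarith [mul_nonneg hx0 hy0]

end num

section
variable {G Q : Type*} [AddCommGroup G] [DecidableEq G] [AddCommGroup Q] [DecidableEq Q]

lemma TT_eq_sch (B : Finset G) : TT B B B = Pool.Agent.GL.sch B := by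
  unfold TT Pool.Agent.GL.sch
  rw [Finset.card_filter, Finset.sum_product]
  push_cast
  rfl

lemma FF_eq (B : Finset G) : FF B = Pool.Agent.GL.FF B := by
  unfold FF Pool.Agent.GL.FF
  rw [TT_eq_sch]

lemma card_eq_sum_fib (φ : G → Q) (B : Finset G) :
    (B.card : ℤ) = ∑ u ∈ B.image φ, ((fib φ B u).card : ℤ) := by
  have := Finset.card_eq_sum_card_image φ B
  exact_mod_cast this

lemma fib_card_le (φ : G →+ Q) (K : Finset G) (hK : ∀ x, x ∈ K ↔ φ x = 0) (B : Finset G) (u : Q) :
    (fib φ B u).card ≤ K.card := by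
  classical
  rcases (fib φ B u).eq_empty_or_nonempty with h | ⟨a, ha⟩
  · rw [h]; simp
  · refine Finset.card_le_card_of_injOn (fun x => x - a) ?_ ?_
    · intro x hx
      have h1 := (Finset.mem_filter.mp hx).2
      have h2 := (Finset.mem_filter.mp ha).2
      have : x - a ∈ K := by
        rw [hK, map_sub, h1, h2, sub_self]
      simpa using this
    · intro x _ y _ hxy
      simpa using hxy

lemma sum_bpos (φ : G → Q) (ν : Q → ℤ) (B : Finset G) :
    bpos φ ν B = ∑ u ∈ (B.image φ).filter (fun u => 0 < ν u), ((fib φ B u).card : ℤ) := by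
  unfold bpos
  have h := Finset.card_eq_sum_card_image φ (B.filter (fun x => 0 < ν (φ x)))
  have h1 : (B.filter (fun x => 0 < ν (φ x))).image φ = (B.image φ).filter (fun u => 0 < ν u) := by
    ext u
    simp only [Finset.mem_image, Finset.mem_filter]
    constructor
    · rintro ⟨x, ⟨h1, h2⟩, h3⟩
      exact ⟨⟨x, h1, h3⟩, by rw [← h3]; exact h2⟩
    · rintro ⟨⟨x, h1, h3⟩, h2⟩
      exact ⟨x, ⟨h1, by rw [h3]; exact h2⟩, h3⟩
  rw [h1] at h
  rw [h]
  push_cast
  refine Finset.sum_congr rfl fun u hu => ?_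
  congr 1
  congr 1
  unfold fib
  ext x
  simp only [Finset.mem_filter]
  have hu2 := (Finset.mem_filter.mp hu).2
  constructor
  · rintro ⟨⟨h1, _⟩, h3⟩; exact ⟨h1, h3⟩
  · rintro ⟨h1, h3⟩; exact ⟨⟨h1, by rw [h3]; exact hu2⟩, h3⟩

lemma sum_bneg (φ : G → Q) (ν : Q → ℤ) (B : Finset G) :
    bneg φ ν B = ∑ u ∈ (B.image φ).filter (fun u => ν u < 0), ((fib φ B u).card : ℤ) := by
  rw [← bpos_neg, sum_bpos]
  congr 1
  ext u
  simp

/-- **B contains the kernel of the height function.** -/
theorem peel_full (φ : G →+ Q) (ν : Q → ℤ) (h0 : ν 0 = 0) (B K : Finset G)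
    (hK : ∀ x, x ∈ K ↔ φ x = 0) (hKB : K ⊆ B)
    (hadd : ∀ x ∈ B, ∀ y ∈ B, x + y ∈ B → ν (φ (x + y)) = ν (φ x) + ν (φ y))
    (hz : ∀ x ∈ B, ν (φ x) = 0 → φ x = 0) (k s : ℤ) (hs0 : 0 ≤ s) (hs1 : s ≤ K.card)
    (hb : (B.card : ℤ) = (2 * k + 1) * K.card + s ∨ (B.card : ℤ) = (2 * k + 1) * K.card - s) :
    FF B ≤ ((K.card : ℤ) - s) * (K.card - 5 * s) := by
  classical
  set h : ℤ := (K.card : ℤ) with hh
  have hKne : K.Nonempty := ⟨0, by rw [hK]; simp⟩
  have hpos : 0 < h := by rw [hh]; exact_mod_cast hKne.card_pos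
  have hfib0 : fib φ B 0 = K := by
    ext x
    simp only [fib, Finset.mem_filter]
    rw [hK]
    constructor
    · exact fun h => h.2
    · intro hx; exact ⟨hKB ((hK x).mpr hx), hx⟩
  have hTK : TT K K K = h ^ 2 := by
    unfold TT
    have : ∀ x ∈ K, ∀ y ∈ K, (if x + y ∈ K then (1:ℤ) else 0) = 1 := by
      intro x hx y hy
      rw [if_pos]
      rw [hK] at *
      rw [map_add, hx, hy, add_zero]
    rw [Finset.sum_congr rfl fun x hx => Finset.sum_congr rfl (this x hx)]
    simp [sq, hh]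
  have hFK : FF K = h ^ 2 := by
    unfold FF
    rw [hTK]; ring
  have h1 := peel_simple φ ν h0 B hadd hz
  rw [hfib0, hFK] at h1
  -- all fibres are at most h
  have hle : ∀ u, ((fib φ B u).card : ℤ) ≤ h := fun u => by
    rw [hh]; exact_mod_cast fib_card_le φ K hK B u
  have h2 : ∀ u ∈ (B.image φ).erase 0, (8 * min (((fib φ B u).card : ℤ) ^ 2)
        (((fib φ B u).card : ℤ) * K.card)
        - 6 * ((fib φ B u).card : ℤ) * K.card - 2 * ((fib φ B u).card : ℤ) ^ 2)
        ≤ - (6 * (((fib φ B u).card : ℤ) * (h - (fib φ B u).card))) := by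
    intro u _
    have e1 := hle u
    have e2 : (0:ℤ) ≤ (fib φ B u).card := by positivity
    have e3 : min (((fib φ B u).card : ℤ) ^ 2) (((fib φ B u).card : ℤ) * K.card) ≤
      ((fib φ B u).card : ℤ) ^ 2 := min_le_left _ _
    rw [← hh]
    rw [← hh] at e3
    nlinarith
  have h3 := Finset.sum_le_sum h2
  rw [Finset.sum_neg_distrib, ← Finset.mul_sum] at h3
  -- split into positive and negative parts
  have himg0 : (0 : Q) ∈ B.image φ := by
    obtain ⟨x, hx⟩ := hKne
    exact Finset.mem_image.mpr ⟨x, hKB hx, (hK x).mp hx⟩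
  have hsplit : (B.image φ).erase 0 = (B.image φ).filter (fun u => 0 < ν u) ∪
      (B.image φ).filter (fun u => ν u < 0) := by
    ext u
    simp only [Finset.mem_erase, Finset.mem_union, Finset.mem_filter]
    constructor
    · rintro ⟨h4, h5⟩
      rcases lt_trichotomy (ν u) 0 with h6 | h6 | h6
      · right; exact ⟨h5, h6⟩
      · exfalso
        obtain ⟨x, hx, hxu⟩ := Finset.mem_image.mp h5
        apply h4
        rw [← hxu]
        exact hz x hx (by rw [hxu]; exact h6)
      · left; exact ⟨h5, h6⟩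
    · rintro (⟨h4, h5⟩ | ⟨h4, h5⟩)
      · refine ⟨?_, h4⟩
        rintro rfl
        rw [h0] at h5; exact lt_irrefl _ h5
      · refine ⟨?_, h4⟩
        rintro rfl
        rw [h0] at h5; exact lt_irrefl _ h5
  have hdisj : Disjoint ((B.image φ).filter (fun u => 0 < ν u))
      ((B.image φ).filter (fun u => ν u < 0)) := by
    rw [Finset.disjoint_left]
    intro u h4 h5
    have := (Finset.mem_filter.mp h4).2
    have := (Finset.mem_filter.mp h5).2
    linarith
  have hbsum : bpos φ ν B + bneg φ ν B + h = B.card := by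
    rw [card_eq_sum_fib φ B, ← Finset.sum_erase_add _ _ himg0, hfib0, hsplit,
      Finset.sum_union hdisj, ← sum_bpos, ← sum_bneg]
  have h4 : gam h (bpos φ ν B) + gam h (bneg φ ν B) ≤
      ∑ u ∈ (B.image φ).erase 0, ((fib φ B u).card : ℤ) * (h - (fib φ B u).card) := by
    rw [hsplit, Finset.sum_union hdisj, sum_bpos, sum_bneg]
    exact add_le_add
      (gam_sum hpos _ _ (fun u _ => by positivity) (fun u _ => hle u))
      (gam_sum hpos _ _ (fun u _ => by positivity) (fun u _ => hle u))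
  have h5 := num_main (h := h) (p := bpos φ ν B) (n := bneg φ ν B) (s := s) (k := k) hpos hs0 hs1
    (by
      rcases hb with hb | hb
      · left; linarith
      · right; linarith)
  nlinarith [h1, h3, h4, h5]

end

end Pool.Agent.Lib_helper13.PL
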