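import Mathlib
import Pool.Agent.Lib_helper13.PL.Peel
import Pool.Agent.Lib_helper13.PL.Cor
import Pool.Agent.Lib_helper28.GL.Defs

/-!
# Fourier lemma for `MP_682720`

`fou`: some surjection `φ : G →+ ZMod m`, `m ≥ 2`, with
`n sch(B) ≤ b³ + (∑_{x ∈ B} cos (2π φ(x) / m)) (n b - b²)`.
-/

set_option autoImplicit false
set_option linter.unusedSectionVars false

namespace Pool.Agent.Lib_helper13.PL

open Finset

section fourier

variable {G : Type*} [AddCommGroup G]

/-- Fourier transform of the indicator function -/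
noncomputable def hat (B : Finset G) (χ : AddChar G ℂ) : ℂ := ∑ x ∈ B, χ x

lemma hat_zero (B : Finset G) : hat B (0 : AddChar G ℂ) = (B.card : ℂ) := by
  unfold hat
  simp

lemma hat_conj [Finite G] (B : Finset G) (χ : AddChar G ℂ) :
    (starRingEnd ℂ) (hat B χ) = ∑ x ∈ B, χ (-x) := by
  unfold hat
  rw [map_sum]
  exact Finset.sum_congr rfl fun x _ => (AddChar.map_neg_eq_conj χ x).symm

lemma hat_mul_conj [Finite G] (B : Finset G) (χ : AddChar G ℂ) :
    hat B χ * (starRingEnd ℂ) (hat B χ) = ∑ x ∈ B, ∑ y ∈ B, χ (x - y) := by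
  rw [hat_conj]
  unfold hat
  rw [Finset.sum_mul_sum]
  refine Finset.sum_congr rfl fun x _ => Finset.sum_congr rfl fun y _ => ?_
  rw [sub_eq_add_neg, AddChar.map_add_eq_mul]

lemma parseval [Fintype G] [DecidableEq G] (B : Finset G) :
    ∑ χ : AddChar G ℂ, Complex.normSq (hat B χ) = (Fintype.card G : ℝ) * B.card := by
  have h1 : ((∑ χ : AddChar G ℂ, Complex.normSq (hat B χ) : ℝ) : ℂ) =
      ((Fintype.card G : ℝ) * B.card : ℝ) := by
    push_cast
    calc ∑ χ : AddChar G ℂ, (Complex.normSq (hat B χ) : ℂ)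
        = ∑ χ : AddChar G ℂ, ∑ x ∈ B, ∑ y ∈ B, χ (x - y) := by
          refine Finset.sum_congr rfl fun χ _ => ?_
          rw [← hat_mul_conj, Complex.mul_conj]
      _ = ∑ x ∈ B, ∑ y ∈ B, ∑ χ : AddChar G ℂ, χ (x - y) := by
          rw [Finset.sum_comm]
          exact Finset.sum_congr rfl fun x _ => Finset.sum_comm
      _ = ∑ x ∈ B, ∑ y ∈ B, (if x = y then (Fintype.card G : ℂ) else 0) := by
          refine Finset.sum_congr rfl fun x _ => Finset.sum_congr rfl fun y _ => ?_
          rw [AddChar.sum_apply_eq_ite]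
          simp only [sub_eq_zero]
      _ = ∑ x ∈ B, (Fintype.card G : ℂ) := by
          refine Finset.sum_congr rfl fun x hx => ?_
          rw [Finset.sum_ite_eq, if_pos hx]
      _ = (Fintype.card G : ℂ) * B.card := by
          rw [Finset.sum_const, nsmul_eq_mul, mul_comm]
  exact_mod_cast h1

lemma cubic [Fintype G] [DecidableEq G] (B : Finset G) :
    ∑ χ : AddChar G ℂ, Complex.normSq (hat B χ) * (hat B χ).re =
      (Fintype.card G : ℝ) * (TT B B B : ℤ) := by
  have h1 : ∑ χ : AddChar G ℂ, (Complex.normSq (hat B χ) : ℂ) * hat B χ =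
      (Fintype.card G : ℂ) * ((TT B B B : ℤ) : ℂ) := by
    calc ∑ χ : AddChar G ℂ, (Complex.normSq (hat B χ) : ℂ) * hat B χ
        = ∑ χ : AddChar G ℂ, ∑ x ∈ B, ∑ y ∈ B, ∑ z ∈ B, χ (x + y - z) := by
          refine Finset.sum_congr rfl fun χ _ => ?_
          rw [← Complex.mul_conj, hat_conj]
          have e : hat B χ * (∑ x ∈ B, χ (-x)) * hat B χ =
              hat B χ * (hat B χ * ∑ x ∈ B, χ (-x)) := by ring
          rw [e]
          unfold hat
          rw [Finset.sum_mul_sum, Finset.sum_mul_sum]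
          refine Finset.sum_congr rfl fun x _ => ?_
          refine Finset.sum_congr rfl fun y _ => ?_
          rw [Finset.mul_sum]
          refine Finset.sum_congr rfl fun z _ => ?_
          rw [sub_eq_add_neg, AddChar.map_add_eq_mul, AddChar.map_add_eq_mul]
          ring
      _ = ∑ x ∈ B, ∑ y ∈ B, ∑ z ∈ B, ∑ χ : AddChar G ℂ, χ (x + y - z) := by
          rw [Finset.sum_comm]
          refine Finset.sum_congr rfl fun x _ => ?_
          rw [Finset.sum_comm]
          refine Finset.sum_congr rfl fun y _ => ?_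
          exact Finset.sum_comm
      _ = ∑ x ∈ B, ∑ y ∈ B, (if x + y ∈ B then (Fintype.card G : ℂ) else 0) := by
          refine Finset.sum_congr rfl fun x _ => Finset.sum_congr rfl fun y _ => ?_
          have : ∀ z ∈ B, ∑ χ : AddChar G ℂ, χ (x + y - z) =
              if x + y = z then (Fintype.card G : ℂ) else 0 := by
            intro z _
            rw [AddChar.sum_apply_eq_ite]
            simp only [sub_eq_zero]
          rw [Finset.sum_congr rfl this, Finset.sum_ite_eq]
      _ = (Fintype.card G : ℂ) * ((TT B B B : ℤ) : ℂ) := by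
          unfold TT
          push_cast
          rw [Finset.mul_sum]
          refine Finset.sum_congr rfl fun x _ => ?_
          rw [Finset.mul_sum]
          refine Finset.sum_congr rfl fun y _ => ?_
          split_ifs <;> simp
  have h2 := congrArg Complex.re h1
  rw [Complex.re_sum] at h2
  have h3 : ((Fintype.card G : ℂ) * ((TT B B B : ℤ) : ℂ)).re =
      (Fintype.card G : ℝ) * (TT B B B : ℤ) := by
    have : ((Fintype.card G : ℂ) * ((TT B B B : ℤ) : ℂ)) =
        (((Fintype.card G : ℝ) * (TT B B B : ℤ) : ℝ) : ℂ) := by push_cast; rfl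
    rw [this, Complex.ofReal_re]
  rw [h3] at h2
  rw [← h2]
  refine Finset.sum_congr rfl fun χ _ => ?_
  rw [Complex.re_ofReal_mul]

/-- **Fourier lemma**, character form; the character has the largest real part -/
theorem fou_max [Fintype G] [DecidableEq G] [Nontrivial G] (B : Finset G) :
    ∃ χ : AddChar G ℂ, χ ≠ 0 ∧ (∀ ψ : AddChar G ℂ, ψ ≠ 0 → (hat B ψ).re ≤ (hat B χ).re) ∧
      (Fintype.card G : ℝ) * (TT B B B : ℤ) ≤ (B.card : ℝ) ^ 3 +
        (hat B χ).re * ((Fintype.card G : ℝ) * B.card - (B.card : ℝ) ^ 2) := by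
  classical
  have hne : ((Finset.univ : Finset (AddChar G ℂ)).erase 0).Nonempty := by
    obtain ⟨a, ha⟩ := exists_ne (0 : G)
    obtain ⟨ψ, hψ⟩ := AddChar.exists_apply_ne_zero.2 ha
    refine ⟨ψ, Finset.mem_erase.2 ⟨?_, Finset.mem_univ _⟩⟩
    rintro rfl
    exact hψ (AddChar.zero_apply a)
  obtain ⟨χ, hχ, hmax⟩ := Finset.exists_max_image _ (fun ψ => (hat B ψ).re) hne
  have hmax' : ∀ ψ : AddChar G ℂ, ψ ≠ 0 → (hat B ψ).re ≤ (hat B χ).re := fun ψ hψ =>
    hmax ψ (Finset.mem_erase.2 ⟨hψ, Finset.mem_univ _⟩)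
  refine ⟨χ, (Finset.mem_erase.1 hχ).1, hmax', ?_⟩
  rw [← cubic B, ← Finset.add_sum_erase _ _ (Finset.mem_univ (0 : AddChar G ℂ))]
  have hp := parseval B
  rw [← Finset.add_sum_erase _ _ (Finset.mem_univ (0 : AddChar G ℂ))] at hp
  have h0 : hat B (0 : AddChar G ℂ) = (B.card : ℂ) := hat_zero B
  have h0' : Complex.normSq (hat B (0 : AddChar G ℂ)) = (B.card : ℝ) ^ 2 := by
    rw [h0, Complex.normSq_natCast]
    ring
  have h0'' : (hat B (0 : AddChar G ℂ)).re = (B.card : ℝ) := by
    rw [h0, Complex.natCast_re]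
  rw [h0'] at hp
  rw [h0', h0'']
  have h1 : ∑ ψ ∈ (Finset.univ : Finset (AddChar G ℂ)).erase 0,
      Complex.normSq (hat B ψ) * (hat B ψ).re ≤
      ∑ ψ ∈ (Finset.univ : Finset (AddChar G ℂ)).erase 0,
        Complex.normSq (hat B ψ) * (hat B χ).re := by
    refine Finset.sum_le_sum fun ψ hψ => ?_
    exact mul_le_mul_of_nonneg_left (hmax' ψ (Finset.mem_erase.1 hψ).1) (Complex.normSq_nonneg _)
  rw [← Finset.sum_mul] at h1
  have h2 : ∑ ψ ∈ (Finset.univ : Finset (AddChar G ℂ)).erase 0, Complex.normSq (hat B ψ) =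
      (Fintype.card G : ℝ) * B.card - (B.card : ℝ) ^ 2 := by linarith
  rw [h2] at h1
  nlinarith [h1]

end fourier

section zmod

variable {G : Type*} [AddCommGroup G]

/-- every character of a finite abelian group factors through a surjection to some `ZMod m`,
followed by the standard character -/
theorem exists_zmod [Finite G] (χ : AddChar G ℂ) (hχ : χ ≠ 0) :
    ∃ m : ℕ, 2 ≤ m ∧ ∃ φ : G →+ ZMod m, Function.Surjective φ ∧
      ∀ x, χ x = Complex.exp ((2 * Real.pi * (φ x).valMinAbs / m : ℝ) * Complex.I) := by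
  classical
  set f : Multiplicative G →* ℂˣ := χ.toMonoidHom.toHomUnits with hf
  have hfv : ∀ x : G, ((f (Multiplicative.ofAdd x) : ℂˣ) : ℂ) = χ x := fun x => rfl
  have hfin : Finite f.range := Finite.of_surjective f.rangeRestrict f.rangeRestrict_surjective
  have hcyc : IsCyclic f.range := inferInstance
  set m := Nat.card f.range with hm
  have hm0 : 0 < m := Nat.card_pos
  have : NeZero m := ⟨hm0.ne'⟩
  let e : Multiplicative (ZMod m) ≃* f.range := zmodCyclicMulEquiv hcyc
  let φ₀ : G →+ ZMod m :=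
    AddMonoidHom.toMultiplicative.symm ((e.symm : f.range →* Multiplicative (ZMod m)).comp
      f.rangeRestrict)
  have hφ₀ : ∀ x, e (Multiplicative.ofAdd (φ₀ x)) = f.rangeRestrict (Multiplicative.ofAdd x) := by
    intro x
    show e (e.symm _) = _
    rw [MulEquiv.apply_symm_apply]
  let χ₀ : AddChar (ZMod m) ℂ :=
    { toFun := fun y => (((e (Multiplicative.ofAdd y) : f.range) : ℂˣ) : ℂ)
      map_zero_eq_one' := by simp
      map_add_eq_mul' := fun a b => by
        rw [ofAdd_add, map_mul]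
        simp }
  have hχ₀v : ∀ y, χ₀ y = (((e (Multiplicative.ofAdd y) : f.range) : ℂˣ) : ℂ) := fun y => rfl
  have hχ₀ : ∀ x, χ x = χ₀ (φ₀ x) := by
    intro x
    rw [hχ₀v, hφ₀, ← hfv]
    rfl
  have hinj : Function.Injective χ₀ := by
    intro a b h
    rw [hχ₀v, hχ₀v] at h
    have h1 := e.injective (Subtype.ext (Units.ext h))
    exact Multiplicative.ofAdd.injective h1
  obtain ⟨k, hk⟩ := (AddChar.zmodAddEquiv (n := m)).surjective χ₀
  have hval : ∀ y : ZMod m, χ₀ y =
      Complex.exp ((2 * Real.pi * (k * y).valMinAbs / m : ℝ) * Complex.I) := by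
    intro y
    rw [← hk, AddChar.zmodAddEquiv_apply]
    have h1 : AddChar.zmod m k y = AddChar.zmod m 1 (k * y) := by
      simp [AddChar.zmod]
    have h2 : AddChar.zmod m 1 (k * y) = Circle.exp (2 * Real.pi * (k * y).valMinAbs / m) := by
      have h3 := AddChar.zmod_intCast m 1 (k * y).valMinAbs
      rw [ZMod.coe_valMinAbs] at h3
      rw [show ((1 : ℤ) : ZMod m) = 1 by simp] at h3
      rw [h3]
      congr 1
      push_cast
      ring
    show ((AddChar.zmod m k y : Circle) : ℂ) = _
    rw [h1, h2, Circle.coe_exp]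
  have hkinj : Function.Injective (fun y : ZMod m => k * y) := by
    intro a b h
    have h' : k * a = k * b := h
    apply hinj
    rw [hval, hval, h']
  have hksurj : Function.Surjective (fun y : ZMod m => k * y) :=
    Finite.surjective_of_injective hkinj
  have hφ₀s : Function.Surjective φ₀ := by
    intro y
    obtain ⟨x, hx⟩ := f.rangeRestrict_surjective (e (Multiplicative.ofAdd y))
    refine ⟨Multiplicative.toAdd x, ?_⟩
    have h1 := hφ₀ (Multiplicative.toAdd x)
    rw [ofAdd_toAdd, hx] at h1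
    exact Multiplicative.ofAdd.injective (e.injective h1)
  refine ⟨m, ?_, (AddMonoidHom.mulLeft k).comp φ₀, ?_, ?_⟩
  · by_contra hlt
    have hm1 : m = 1 := by omega
    apply hχ
    ext x
    rw [hχ₀ x, AddChar.zero_apply]
    have hsub : Subsingleton (ZMod m) := by rw [hm1]; infer_instance
    rw [Subsingleton.elim (φ₀ x) 0, AddChar.map_zero_eq_one]
  · intro y
    obtain ⟨z, hz⟩ := hksurj y
    obtain ⟨x, hx⟩ := hφ₀s z
    exact ⟨x, by simpa [hx] using hz⟩
  · intro x
    rw [hχ₀ x, hval]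
    rfl

end zmod

end Pool.Agent.Lib_helper13.PL
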