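import Mathlib
import Pool.Agent.Lib_helper13.PL.Cor

/-!
# Adding and removing one element
-/

set_option autoImplicit false
set_option linter.unusedSectionVars false

namespace Pool.Agent.Lib_helper13.PL

open Finset

section
variable {G : Type*} [AddCommGroup G] [DecidableEq G]

/-- `2 r_{B-B}(x) + r_{B+B}(x)` -/
def DB (B : Finset G) (x : G) : ℤ := 2 * TT {x} B B + TT B B {x}

/-- `[x ∈ B]` -/
def iv (B : Finset G) (x : G) : ℤ := if x ∈ B then 1 else 0

/-- `δ'_B(x) = #{y ∈ B : x - y ∉ B}` -/
def dlt' (B : Finset G) (x : G) : ℤ := ((B.filter (fun y => x - y ∉ B)).card : ℤ)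

lemma iv_nonneg (B : Finset G) (x : G) : 0 ≤ iv B x := by unfold iv; split_ifs <;> norm_num
lemma iv_le_one (B : Finset G) (x : G) : iv B x ≤ 1 := by unfold iv; split_ifs <;> norm_num

lemma TT_single1 (B : Finset G) (x : G) : TT {x} B B = (B.card : ℤ) - dlt B x := by
  unfold TT
  rw [Finset.sum_singleton, Finset.sum_boole]
  unfold dlt
  have h := Finset.card_filter_add_card_filter_not (s := B) (fun y => x + y ∈ B)
  have h2 : (B.filter (fun y => ¬ (x + y ∈ B))) = B.filter (fun y => y + x ∉ B) := by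
    refine Finset.filter_congr fun y _ => ?_
    rw [add_comm]
  rw [h2] at h
  have h3 : ((B.filter (fun y => x + y ∈ B)).card : ℤ)
      + ((B.filter (fun y => y + x ∉ B)).card : ℤ) = B.card := by exact_mod_cast h
  linarith

lemma TT_single3 (B : Finset G) (x : G) : TT B B {x} = (B.card : ℤ) - dlt' B x := by
  unfold TT
  have h1 : ∀ y ∈ B, (∑ z ∈ B, if y + z ∈ ({x} : Finset G) then (1:ℤ) else 0) =
      if x - y ∈ B then 1 else 0 := by
    intro y _
    have h2 : ∀ z ∈ B, (if y + z ∈ ({x} : Finset G) then (1:ℤ) else 0) =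
        if z = x - y then 1 else 0 := by
      intro z _
      have : y + z ∈ ({x} : Finset G) ↔ z = x - y := by
        rw [Finset.mem_singleton]
        constructor
        · intro h; rw [← h]; abel
        · intro h; rw [h]; abel
      simp only [this]
    rw [Finset.sum_congr rfl h2, Finset.sum_ite_eq']
  rw [Finset.sum_congr rfl h1, Finset.sum_boole]
  unfold dlt'
  have h := Finset.card_filter_add_card_filter_not (s := B) (fun y => x - y ∈ B)
  have h3 : ((B.filter (fun y => x - y ∈ B)).card : ℤ)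
      + ((B.filter (fun y => ¬ (x - y ∈ B))).card : ℤ) = B.card := by exact_mod_cast h
  linarith

/-- `D_B(x) = 3 b - 2 δ(x) - δ'(x)` -/
lemma DB_eq (B : Finset G) (x : G) : DB B x = 3 * (B.card : ℤ) - 2 * dlt B x - dlt' B x := by
  unfold DB
  rw [TT_single1, TT_single3]; ring

lemma TT_single13 (B : Finset G) (x : G) : TT {x} B {x} = iv B 0 := by
  unfold TT iv
  rw [Finset.sum_singleton]
  have h2 : ∀ z ∈ B, (if x + z ∈ ({x} : Finset G) then (1:ℤ) else 0) = if z = 0 then 1 else 0 := by
    intro z _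
    have : x + z ∈ ({x} : Finset G) ↔ z = 0 := by
      rw [Finset.mem_singleton]
      exact add_eq_left
    simp only [this]
  rw [Finset.sum_congr rfl h2, Finset.sum_ite_eq']

lemma TT_single12 (B : Finset G) (x : G) : TT {x} {x} B = iv B (x + x) := by
  unfold TT iv
  rw [Finset.sum_singleton, Finset.sum_singleton]

lemma TT_single123 (x : G) : TT {x} {x} ({x} : Finset G) = iv {0} x := by
  unfold TT iv
  rw [Finset.sum_singleton, Finset.sum_singleton]
  have : x + x ∈ ({x} : Finset G) ↔ x ∈ ({0} : Finset G) := by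
    rw [Finset.mem_singleton, Finset.mem_singleton]
    exact add_eq_left
  simp only [this]

/-- inserting one element -/
lemma TT_insert (B : Finset G) (x : G) (hx : x ∉ B) :
    TT (insert x B) (insert x B) (insert x B) =
      TT B B B + DB B x + 2 * iv B 0 + iv B (x + x) + iv {0} x := by
  have hd : Disjoint B {x} := Finset.disjoint_singleton_right.mpr hx
  have hu : insert x B = B ∪ {x} := by
    rw [Finset.union_comm]; rfl
  rw [hu, TT_add_piece hd, TT_union3 _ _ hd, TT_union3 _ _ hd, TT_single13, TT_single12,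
    TT_single123]
  unfold DB
  ring

lemma TT_erase (B : Finset G) (x : G) (hx : x ∈ B) (h0 : x ≠ 0) :
    TT B B B = TT (B.erase x) (B.erase x) (B.erase x) + DB B x - 2 * iv B 0 - iv B (x + x) := by
  have h1 := TT_insert (B.erase x) x (Finset.notMem_erase x B)
  rw [Finset.insert_erase hx] at h1
  have hd : Disjoint (B.erase x) {x} := Finset.disjoint_singleton_right.mpr (Finset.notMem_erase x B)
  have hu : B = B.erase x ∪ {x} := by
    rw [Finset.union_comm]
    exact (Finset.insert_erase hx).symm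
  have i0 : iv (B.erase x) 0 = iv B 0 := by
    unfold iv
    simp only [Finset.mem_erase, ne_eq]
    have : (0 : G) ≠ x := fun h => h0 h.symm
    simp [this]
  have i2 : iv (B.erase x) (x + x) = iv B (x + x) := by
    unfold iv
    simp only [Finset.mem_erase, ne_eq]
    have : x + x ≠ x := fun h => h0 (add_eq_left.mp h)
    simp [this]
  have i3 : iv ({0} : Finset G) x = 0 := by
    unfold iv
    simp [h0]
  -- the value of DB
  have a1 : TT {x} B B = TT {x} (B.erase x) (B.erase x) + iv B 0 + iv B (x + x) := by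
    conv_lhs => rw [hu]
    rw [TT_union2 _ _ hd, TT_union3 _ _ hd, TT_union3 _ _ hd, TT_single13, TT_single12,
      TT_single123, i0, i2, i3]
    ring
  have a2 : TT B B {x} = TT (B.erase x) (B.erase x) {x} + 2 * iv B 0 := by
    conv_lhs => rw [hu]
    rw [TT_union1 _ _ hd, TT_union2 _ _ hd, TT_union2 _ _ hd, TT_comm (B.erase x) {x},
      TT_single13, TT_single123, i0, i3]
    ring
  rw [i0, i2, i3] at h1
  unfold DB at h1 ⊢
  linarith

/-- `KKT`, an element outside -/
theorem kkt_notMem (f : ℕ → ℤ) (B : Finset G)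
    (hmax : ∀ B' : Finset G, Pool.Agent.GL.FF B' - f B'.card ≤ Pool.Agent.GL.FF B - f B.card)
    (v : G) (hv : v ∉ B) (h0 : v ≠ 0) :
    4 * (DB B v + iv B (v + v) + 2 * iv B 0) - 3 * (2 * (B.card : ℤ) + 1) ≤
      f (B.card + 1) - f B.card := by
  have h1 := hmax (insert v B)
  rw [Finset.card_insert_of_notMem hv, ← FF_eq, ← FF_eq] at h1
  unfold FF at h1
  rw [TT_insert B v hv, Finset.card_insert_of_notMem hv] at h1
  have i3 : iv ({0} : Finset G) v = 0 := by
    unfold iv
    simp [h0]
  rw [i3] at h1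
  push_cast at h1
  nlinarith [h1]

/-- `KKT`, the element `0` outside -/
theorem kkt_zero (f : ℕ → ℤ) (B : Finset G)
    (hmax : ∀ B' : Finset G, Pool.Agent.GL.FF B' - f B'.card ≤ Pool.Agent.GL.FF B - f B.card)
    (hv : (0 : G) ∉ B) :
    4 * (DB B 0 + 1) - 3 * (2 * (B.card : ℤ) + 1) ≤ f (B.card + 1) - f B.card := by
  have h1 := hmax (insert 0 B)
  rw [Finset.card_insert_of_notMem hv, ← FF_eq, ← FF_eq] at h1
  unfold FF at h1
  rw [TT_insert B 0 hv, Finset.card_insert_of_notMem hv] at h1
  have i0 : iv B 0 = 0 := by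
    unfold iv
    simp [hv]
  have i3 : iv ({0} : Finset G) 0 = 1 := by
    unfold iv
    simp
  rw [add_zero, i3, i0] at h1
  push_cast at h1
  nlinarith [h1]

/-- `KKT`, an element inside -/
theorem kkt_mem (f : ℕ → ℤ) (B : Finset G)
    (hmax : ∀ B' : Finset G, Pool.Agent.GL.FF B' - f B'.card ≤ Pool.Agent.GL.FF B - f B.card)
    (x : G) (hx : x ∈ B) (h0 : x ≠ 0) :
    f B.card - f (B.card - 1) ≤
      4 * (DB B x - iv B (x + x) - 2 * iv B 0) - 3 * (2 * (B.card : ℤ) - 1) := by
  have h1 := hmax (B.erase x)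
  have hc : 0 < B.card := Finset.card_pos.mpr ⟨x, hx⟩
  rw [Finset.card_erase_of_mem hx, ← FF_eq, ← FF_eq] at h1
  unfold FF at h1
  rw [TT_erase B x hx h0, Finset.card_erase_of_mem hx] at h1
  have hc' : ((B.card - 1 : ℕ) : ℤ) = (B.card : ℤ) - 1 := by
    rw [Nat.cast_sub hc]; rfl
  rw [hc'] at h1
  nlinarith [h1]

/-- outside, in terms of the norms -/
theorem kkt_notMem' (f : ℕ → ℤ) (B : Finset G)
    (hmax : ∀ B' : Finset G, Pool.Agent.GL.FF B' - f B'.card ≤ Pool.Agent.GL.FF B - f B.card)
    (v : G) (hv : v ∉ B) (h0 : v ≠ 0) :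
    6 * (B.card : ℤ) - 3 - (f (B.card + 1) - f B.card) ≤ 4 * (2 * dlt B v + dlt' B v) := by
  have h1 := kkt_notMem f B hmax v hv h0
  rw [DB_eq] at h1
  have := iv_nonneg B (v + v)
  have := iv_nonneg B 0
  linarith

/-- inside, in terms of the norms -/
theorem kkt_mem' (f : ℕ → ℤ) (B : Finset G)
    (hmax : ∀ B' : Finset G, Pool.Agent.GL.FF B' - f B'.card ≤ Pool.Agent.GL.FF B - f B.card)
    (x : G) (hx : x ∈ B) (h0 : x ≠ 0) :
    4 * (2 * dlt B x + dlt' B x) ≤ 6 * (B.card : ℤ) + 3 - (f B.card - f (B.card - 1)) := by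
  have h1 := kkt_mem f B hmax x hx h0
  rw [DB_eq] at h1
  have := iv_nonneg B (x + x)
  have := iv_nonneg B 0
  linarith

/-- `F(B) = b^2 - 4 ∑_{y ∈ B} δ(y)` -/
lemma FF_eq_dlt (B : Finset G) : FF B = (B.card : ℤ) ^ 2 - 4 * ∑ y ∈ B, dlt B y := by
  unfold FF
  rw [TT_self]
  ring

/-- the norm is subadditive -/
lemma dlt_add (B : Finset G) (x y : G) : dlt B (x + y) ≤ dlt B x + dlt B y := by
  unfold dlt
  have h1 : B.filter (fun z => z + (x + y) ∉ B) ⊆
      B.filter (fun z => z + x ∉ B) ∪ (B.filter (fun z => z + y ∉ B)).image (fun z => z - x) := by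
    intro z hz
    have hz' := Finset.mem_filter.mp hz
    by_cases h : z + x ∈ B
    · refine Finset.mem_union_right _ (Finset.mem_image.mpr ⟨z + x, ?_, by abel⟩)
      refine Finset.mem_filter.mpr ⟨h, ?_⟩
      rw [add_assoc]; exact hz'.2
    · exact Finset.mem_union_left _ (Finset.mem_filter.mpr ⟨hz'.1, h⟩)
  have h2 := Finset.card_le_card h1
  have h3 := Finset.card_union_le (B.filter (fun z => z + x ∉ B))
    ((B.filter (fun z => z + y ∉ B)).image (fun z => z - x))
  have h4 := Finset.card_image_le (s := B.filter (fun z => z + y ∉ B)) (f := fun z => z - x)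
  exact_mod_cast h2.trans (h3.trans (by omega))

/-- the norm is symmetric -/
lemma dlt_neg (B : Finset G) (x : G) : dlt B (-x) = dlt B x := by
  unfold dlt
  have h1 := Finset.card_filter_add_card_filter_not (s := B) (fun z => z + x ∈ B)
  have h2 := Finset.card_filter_add_card_filter_not (s := B) (fun z => z + -x ∈ B)
  have h3 : (B.filter (fun z => z + x ∈ B)).card = (B.filter (fun z => z + -x ∈ B)).card := by
    refine Finset.card_bij (fun z _ => z + x) ?_ ?_ ?_
    · intro z hz
      have hz' := Finset.mem_filter.mp hz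
      exact Finset.mem_filter.mpr ⟨hz'.2, by rw [add_neg_cancel_right]; exact hz'.1⟩
    · intro a _ b _ hab
      simpa using hab
    · intro z hz
      have hz' := Finset.mem_filter.mp hz
      exact ⟨z + -x, Finset.mem_filter.mpr ⟨hz'.2, by rw [neg_add_cancel_right]; exact hz'.1⟩,
        by rw [neg_add_cancel_right]⟩
  have h4 : (B.filter (fun z => z + -x ∉ B)).card = (B.filter (fun z => z + x ∉ B)).card := by
    omega
  exact_mod_cast h4

lemma dlt_nsmul (B : Finset G) (x : G) (k : ℕ) : dlt B (k • x) ≤ k * dlt B x := by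
  induction k with
  | zero => simp [dlt_zero']
  | succ k ih =>
    rw [succ_nsmul]
    have := dlt_add B (k • x) x
    push_cast
    linarith
where
  dlt_zero' : dlt B 0 = 0 := by
    unfold dlt
    rw [Finset.filter_false_of_mem]
    · simp
    · intro z hz
      simp [hz]

end

end Pool.Agent.Lib_helper13.PL
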