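import Mathlib
import Pool.Agent.Lib_helper13.PL.FOU
import Pool.Agent.Lib_helper13.PL.KKT

/-!
# Fourier lemma for `MP_682720`, second part: the form with `ZMod m` and the lower bounds for
`δ` and `δ'`
-/

set_option autoImplicit false
set_option linter.unusedSectionVars false

namespace Pool.Agent.Lib_helper13.PL

open Finset

variable {G : Type*} [AddCommGroup G]

/-- `χ` is the standard character of order `m` composed with `φ` -/
def Std (χ : AddChar G ℂ) {m : ℕ} (φ : G →+ ZMod m) : Prop :=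
  ∀ x, χ x = Complex.exp ((2 * Real.pi * (φ x).valMinAbs / m : ℝ) * Complex.I)

lemma hat_re_eq (B : Finset G) {χ : AddChar G ℂ} {m : ℕ} {φ : G →+ ZMod m} (h : Std χ φ) :
    (hat B χ).re = ∑ x ∈ B, Real.cos (2 * Real.pi * (φ x).valMinAbs / m) := by
  unfold hat
  rw [Complex.re_sum]
  refine Finset.sum_congr rfl fun x _ => ?_
  rw [h x, Complex.exp_ofReal_mul_I_re]

lemma hat_im_eq (B : Finset G) {χ : AddChar G ℂ} {m : ℕ} {φ : G →+ ZMod m} (h : Std χ φ) :
    (hat B χ).im = ∑ x ∈ B, Real.sin (2 * Real.pi * (φ x).valMinAbs / m) := by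
  unfold hat
  rw [Complex.im_sum]
  refine Finset.sum_congr rfl fun x _ => ?_
  rw [h x, Complex.exp_ofReal_mul_I_im]

/-- **Fourier lemma** -/
theorem fou [Finite G] [DecidableEq G] [Nontrivial G] (B : Finset G) :
    ∃ (χ : AddChar G ℂ) (m : ℕ) (φ : G →+ ZMod m), 2 ≤ m ∧ Function.Surjective φ ∧ Std χ φ ∧
      (∀ ψ : AddChar G ℂ, ψ ≠ 0 → (hat B ψ).re ≤ (hat B χ).re) ∧
      (Nat.card G : ℝ) * (GL.sch B : ℤ) ≤ (B.card : ℝ) ^ 3 +
        (hat B χ).re * ((Nat.card G : ℝ) * B.card - (B.card : ℝ) ^ 2) := by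
  cases nonempty_fintype G
  obtain ⟨χ, h0, h1, h2⟩ := fou_max B
  obtain ⟨m, hm, φ, hφ, hχ⟩ := exists_zmod χ h0
  refine ⟨χ, m, φ, hm, hφ, hχ, h1, ?_⟩
  rw [Nat.card_eq_fintype_card, ← TT_eq_sch]
  exact h2

/-- the same with `F(B) = 4 sch(B) - 3 |B|²` -/
theorem fou_FF [Finite G] [DecidableEq G] [Nontrivial G] (B : Finset G) :
    ∃ (χ : AddChar G ℂ) (m : ℕ) (φ : G →+ ZMod m), 2 ≤ m ∧ Function.Surjective φ ∧ Std χ φ ∧
      (∀ ψ : AddChar G ℂ, ψ ≠ 0 → (hat B ψ).re ≤ (hat B χ).re) ∧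
      (Nat.card G : ℝ) * ((GL.FF B : ℤ) + 3 * (B.card : ℝ) ^ 2) ≤ 4 * (B.card : ℝ) ^ 3 +
        4 * (hat B χ).re * ((Nat.card G : ℝ) * B.card - (B.card : ℝ) ^ 2) := by
  obtain ⟨χ, m, φ, h1, h2, h3, h4, h5⟩ := fou B
  refine ⟨χ, m, φ, h1, h2, h3, h4, ?_⟩
  have e : ((GL.FF B : ℤ) : ℝ) + 3 * (B.card : ℝ) ^ 2 = 4 * ((GL.sch B : ℤ) : ℝ) := by
    unfold GL.FF
    push_cast
    ring
  rw [e]
  nlinarith [h5]

/-! ### lower bounds for `δ`, `δ'` -/

lemma norm_hat_le [Finite G] (B : Finset G) (χ : AddChar G ℂ) : ‖hat B χ‖ ≤ B.card := by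
  unfold hat
  refine (norm_sum_le _ _).trans ?_
  simp

lemma hat_sub_hat [DecidableEq G] (A C : Finset G) (χ : AddChar G ℂ) :
    hat A χ - hat C χ = hat (A \ C) χ - hat (C \ A) χ := by
  unfold hat
  have h1 := Finset.sum_inter_add_sum_sdiff A C (fun x => χ x)
  have h2 := Finset.sum_inter_add_sum_sdiff C A (fun x => χ x)
  rw [Finset.inter_comm] at h2
  rw [← h1, ← h2]
  ring

lemma norm_hat_sub_le [Finite G] [DecidableEq G] (A C : Finset G) (h : A.card = C.card)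
    (χ : AddChar G ℂ) : ‖hat A χ - hat C χ‖ ≤ 2 * ((A \ C).card : ℝ) := by
  rw [hat_sub_hat]
  have h1 : (C \ A).card = (A \ C).card := (Finset.card_sdiff_comm h).symm
  calc ‖hat (A \ C) χ - hat (C \ A) χ‖ ≤ ‖hat (A \ C) χ‖ + ‖hat (C \ A) χ‖ := norm_sub_le _ _
    _ ≤ (A \ C).card + (C \ A).card := add_le_add (norm_hat_le _ _) (norm_hat_le _ _)
    _ = 2 * ((A \ C).card : ℝ) := by rw [h1]; ring

lemma dlt_hat [Finite G] [DecidableEq G] (B : Finset G) (χ : AddChar G ℂ) (x : G) :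
    ‖χ x - 1‖ * ‖hat B χ‖ ≤ 2 * ((dlt B x : ℤ) : ℝ) := by
  have hinj : Function.Injective (fun y : G => y + x) := add_left_injective x
  have h1 : hat (B.image (fun y => y + x)) χ = χ x * hat B χ := by
    unfold hat
    rw [Finset.sum_image fun a _ b _ h => hinj h, Finset.mul_sum]
    refine Finset.sum_congr rfl fun y _ => ?_
    rw [AddChar.map_add_eq_mul, mul_comm]
  have h2 : ((B.image (fun y => y + x)) \ B).card = (B.filter (fun y => y + x ∉ B)).card := by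
    rw [← Finset.card_image_of_injective (B.filter (fun y => y + x ∉ B)) hinj]
    congr 1
    ext z
    simp only [Finset.mem_sdiff, Finset.mem_image, Finset.mem_filter]
    constructor
    · rintro ⟨⟨y, hy, rfl⟩, hz⟩
      exact ⟨y, ⟨hy, hz⟩, rfl⟩
    · rintro ⟨y, ⟨hy, hz⟩, rfl⟩
      exact ⟨⟨y, hy, rfl⟩, hz⟩
  have h3 := norm_hat_sub_le (B.image (fun y => y + x)) B
    (Finset.card_image_of_injective B hinj) χ
  rw [h1, h2] at h3
  have e : χ x * hat B χ - hat B χ = (χ x - 1) * hat B χ := by ring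
  rw [e, norm_mul] at h3
  unfold dlt
  exact_mod_cast h3

lemma dlt'_hat [Finite G] [DecidableEq G] (B : Finset G) (χ : AddChar G ℂ) (x : G) :
    ‖χ x * (starRingEnd ℂ) (hat B χ) - hat B χ‖ ≤ 2 * ((dlt' B x : ℤ) : ℝ) := by
  have hinj : Function.Injective (fun y : G => x - y) := sub_right_injective
  have h1 : hat (B.image (fun y => x - y)) χ = χ x * (starRingEnd ℂ) (hat B χ) := by
    rw [hat_conj]
    unfold hat
    rw [Finset.sum_image fun a _ b _ h => hinj h, Finset.mul_sum]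
    refine Finset.sum_congr rfl fun y _ => ?_
    rw [sub_eq_add_neg, AddChar.map_add_eq_mul]
  have h2 : ((B.image (fun y => x - y)) \ B).card = (B.filter (fun y => x - y ∉ B)).card := by
    rw [← Finset.card_image_of_injective (B.filter (fun y => x - y ∉ B)) hinj]
    congr 1
    ext z
    simp only [Finset.mem_sdiff, Finset.mem_image, Finset.mem_filter]
    constructor
    · rintro ⟨⟨y, hy, rfl⟩, hz⟩
      exact ⟨y, ⟨hy, hz⟩, rfl⟩
    · rintro ⟨y, ⟨hy, hz⟩, rfl⟩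
      exact ⟨⟨y, hy, rfl⟩, hz⟩
  have h3 := norm_hat_sub_le (B.image (fun y => x - y)) B
    (Finset.card_image_of_injective B hinj) χ
  rw [h1, h2] at h3
  unfold dlt'
  exact_mod_cast h3

/-- the half angle of `x` -/
noncomputable def ang {m : ℕ} (φ : G →+ ZMod m) (x : G) : ℝ :=
  Real.pi * (φ x).valMinAbs / m

lemma Std.eq {χ : AddChar G ℂ} {m : ℕ} {φ : G →+ ZMod m} (h : Std χ φ) (x : G) :
    χ x = (Complex.cos (ang φ x) + Complex.sin (ang φ x) * Complex.I) ^ 2 := by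
  rw [h x, ← Complex.exp_mul_I, ← Complex.exp_nat_mul]
  congr 1
  unfold ang
  push_cast
  ring

theorem dlt_ge_sin [Finite G] [DecidableEq G] (B : Finset G) {χ : AddChar G ℂ} {m : ℕ}
    {φ : G →+ ZMod m} (h : Std χ φ) (x : G) :
    |Real.sin (ang φ x)| * ‖hat B χ‖ ≤ ((dlt B x : ℤ) : ℝ) := by
  have h1 := dlt_hat B χ x
  have h2 : ‖χ x - 1‖ = 2 * |Real.sin (ang φ x)| := by
    rw [h.eq x]
    set t := ang φ x
    have e : (Complex.cos t + Complex.sin t * Complex.I) ^ 2 - 1 =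
        ((2 * Real.sin t : ℝ) : ℂ) * Complex.I * (Complex.cos t + Complex.sin t * Complex.I) := by
      have h3 := Complex.sin_sq_add_cos_sq (t : ℂ)
      push_cast
      linear_combination (Complex.sin t * Complex.sin t) * Complex.I_sq - 2 * (Complex.sin t * Complex.sin t) * Complex.I_sq + h3
    rw [e, norm_mul, norm_mul, Complex.norm_I, mul_one, Complex.norm_real, ← Complex.exp_mul_I,
      Complex.norm_exp_ofReal_mul_I, mul_one, Real.norm_eq_abs, abs_mul, abs_two]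
  rw [h2] at h1
  linarith

theorem dlt'_ge_sin [Finite G] [DecidableEq G] (B : Finset G) {χ : AddChar G ℂ} {m : ℕ}
    {φ : G →+ ZMod m} (h : Std χ φ) (x : G) :
    |Real.sin (ang φ x) * (hat B χ).re - Real.cos (ang φ x) * (hat B χ).im| ≤
      ((dlt' B x : ℤ) : ℝ) := by
  have h1 := dlt'_hat B χ x
  have h2 : ‖χ x * (starRingEnd ℂ) (hat B χ) - hat B χ‖ =
      2 * |Real.sin (ang φ x) * (hat B χ).re - Real.cos (ang φ x) * (hat B χ).im| := by
    rw [h.eq x]
    set t := ang φ x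
    set z := hat B χ with hz
    have e0 : ∀ a b : ℝ, (Complex.cos t + Complex.sin t * Complex.I) ^ 2 *
        ((a : ℂ) - b * Complex.I) - ((a : ℂ) + b * Complex.I) =
        ((2 * (Real.sin t * a - Real.cos t * b) : ℝ) : ℂ) * Complex.I *
          (Complex.cos t + Complex.sin t * Complex.I) := by
      intro a b
      have h3 := Complex.sin_sq_add_cos_sq (t : ℂ)
      push_cast
      linear_combination ((a : ℂ) + b * Complex.I) * h3 -
        Complex.sin t ^ 2 * ((a : ℂ) + b * Complex.I) * Complex.I_sq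
    have h4 : (starRingEnd ℂ) z = (z.re : ℂ) - z.im * Complex.I := by
      apply Complex.ext <;> simp
    have e := e0 z.re z.im
    rw [← h4, Complex.re_add_im] at e
    rw [e, norm_mul, norm_mul, Complex.norm_I, mul_one, Complex.norm_real, ← Complex.exp_mul_I,
      Complex.norm_exp_ofReal_mul_I, mul_one, Real.norm_eq_abs, abs_mul, abs_two]
  rw [h2] at h1
  linarith

/-- `2 δ + δ' ≥ (|sin t| + √(4 sin² t - cos² t)) Re B^`, `t = π φ(x) / m` -/
theorem two_dlt_add_ge [Finite G] [DecidableEq G] (B : Finset G) {χ : AddChar G ℂ} {m : ℕ}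
    {φ : G →+ ZMod m} (h : Std χ φ) (x : G) (hu : 0 ≤ (hat B χ).re)
    (ht : Real.cos (ang φ x) ^ 2 ≤ 4 * Real.sin (ang φ x) ^ 2) :
    (|Real.sin (ang φ x)| + √(4 * Real.sin (ang φ x) ^ 2 - Real.cos (ang φ x) ^ 2)) *
      (hat B χ).re ≤ 2 * ((dlt B x : ℤ) : ℝ) + ((dlt' B x : ℤ) : ℝ) := by
  have h1 := dlt_ge_sin B h x
  have h2 := dlt'_ge_sin B h x
  set s := Real.sin (ang φ x)
  set c := Real.cos (ang φ x)
  set u := (hat B χ).re
  set w := (hat B χ).im
  set R := √(4 * s ^ 2 - c ^ 2) with hR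
  have hR2 : R ^ 2 = 4 * s ^ 2 - c ^ 2 := Real.sq_sqrt (by linarith)
  have hR0 : 0 ≤ R := Real.sqrt_nonneg _
  have hn : ‖hat B χ‖ ^ 2 = u ^ 2 + w ^ 2 := by
    rw [← Complex.normSq_eq_norm_sq, Complex.normSq_apply]
    ring
  have hn0 : 0 ≤ ‖hat B χ‖ := norm_nonneg _
  -- `R u + |c| |w| ≤ 2 |s| ‖B^‖`
  have key : R * u + |c * w| ≤ 2 * (|s| * ‖hat B χ‖) := by
    apply le_of_sq_le_sq _ (by positivity)
    have e1 : (2 * (|s| * ‖hat B χ‖)) ^ 2 = 4 * s ^ 2 * (u ^ 2 + w ^ 2) := by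
      rw [mul_pow, mul_pow, sq_abs, hn]
      ring
    rw [e1]
    have e2 : 4 * s ^ 2 = R ^ 2 + c ^ 2 := by linarith
    rw [e2]
    have e3 : |c * w| = |c| * |w| := abs_mul _ _
    rw [e3]
    have e4 : c ^ 2 = |c| ^ 2 := (sq_abs c).symm
    have e5 : w ^ 2 = |w| ^ 2 := (sq_abs w).symm
    rw [e4, e5]
    nlinarith [sq_nonneg (R * |w| - |c| * u)]
  have h3 : |s| * u - |c * w| ≤ |s * u - c * w| := by
    have e1 : |s| * u = |s * u| := by rw [abs_mul, abs_of_nonneg hu]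
    rw [e1]
    exact abs_sub_abs_le_abs_sub _ _
  nlinarith

/-- elements of the outer third -/
theorem outer_ge [Finite G] [DecidableEq G] (B : Finset G) {χ : AddChar G ℂ} {m : ℕ} (hm : 2 ≤ m)
    {φ : G →+ ZMod m} (h : Std χ φ) (x : G) (hu : 0 ≤ (hat B χ).re)
    (hx : (m : ℤ) ≤ 3 * |(φ x).valMinAbs|) :
    (√3 / 2 + √11 / 2) * (hat B χ).re ≤ 2 * ((dlt B x : ℤ) : ℝ) + ((dlt' B x : ℤ) : ℝ) := by
  have : NeZero m := ⟨by omega⟩
  have hm0 : (0 : ℝ) < m := by positivity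
  have hv : 2 * |(φ x).valMinAbs| ≤ (m : ℤ) := by
    have h1 := ZMod.natAbs_valMinAbs_le (φ x)
    have h2 : (((φ x).valMinAbs.natAbs : ℕ) : ℤ) = |(φ x).valMinAbs| := Int.natCast_natAbs _
    omega
  have hs : |Real.sin (ang φ x)| = Real.sin (Real.pi * |((φ x).valMinAbs : ℝ)| / m) := by
    unfold ang
    have hpi := Real.pi_pos
    have h0 : 0 ≤ Real.sin (Real.pi * |((φ x).valMinAbs : ℝ)| / m) := by
      apply Real.sin_nonneg_of_nonneg_of_le_pi (by positivity)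
      rw [div_le_iff₀ hm0]
      have h2 : 2 * |((φ x).valMinAbs : ℝ)| ≤ m := by exact_mod_cast hv
      nlinarith [abs_nonneg ((φ x).valMinAbs : ℝ)]
    rcases abs_cases ((φ x).valMinAbs : ℝ) with ⟨e, _⟩ | ⟨e, _⟩
    · rw [e] at h0 ⊢
      exact abs_of_nonneg h0
    · rw [e] at h0 ⊢
      rw [mul_neg, neg_div, Real.sin_neg] at h0 ⊢
      exact abs_of_nonpos (by linarith)
  have hs2 : √3 / 2 ≤ |Real.sin (ang φ x)| := by
    rw [hs, ← Real.sin_pi_div_three]
    have hpi := Real.pi_pos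
    have h2 : 2 * |((φ x).valMinAbs : ℝ)| ≤ m := by exact_mod_cast hv
    have h3 : (m : ℝ) ≤ 3 * |((φ x).valMinAbs : ℝ)| := by exact_mod_cast hx
    apply Real.sin_le_sin_of_le_of_le_pi_div_two (by linarith)
    · rw [div_le_div_iff₀ hm0 (by norm_num)]
      nlinarith
    · rw [div_le_div_iff₀ (by norm_num) hm0]
      nlinarith
  have h3 : (0:ℝ) ≤ √3 := Real.sqrt_nonneg _
  have h33 : √3 ^ 2 = (3 : ℝ) := Real.sq_sqrt (by norm_num)
  have hsq : 3 / 4 ≤ Real.sin (ang φ x) ^ 2 := by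
    rw [← sq_abs]
    nlinarith
  have hcs := Real.sin_sq_add_cos_sq (ang φ x)
  have h4 := two_dlt_add_ge B h x hu (by linarith)
  have h5 : √11 / 2 ≤ √(4 * Real.sin (ang φ x) ^ 2 - Real.cos (ang φ x) ^ 2) := by
    apply Real.le_sqrt_of_sq_le
    rw [div_pow, Real.sq_sqrt (by norm_num)]
    linarith
  refine le_trans (mul_le_mul_of_nonneg_right (add_le_add hs2 h5) hu) h4

end Pool.Agent.Lib_helper13.PL
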